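import Pool.Agent.Helper2.Exp3Main

/-!
MP_099390_co (Q1), in the words of the problem file, with an explicit constant: if the expansion
`G⁺` has crosscut number three, then `ex₃(n, G⁺) ≤ (2 |V(G)| + |E(G)| + 3) n ^ 2` for all `n`.
-/

set_option autoImplicit false

namespace Pool.Agent.Results.MP_099390_co.LinearConstant

open Classical in
/-- The expansion `G⁺`: the vertex set is `V(G) ∪ E(G)`, the edges are the triples `{u, v, e}` for
the edges `e = uv` of `G`. -/
def expansion {V : Type} (G : SimpleGraph V) : Set (Finset (V ⊕ G.edgeSet)) :=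
  {A | ∃ (u v : V) (h : G.Adj u v),
    A = {Sum.inl u, Sum.inl v, Sum.inr ⟨s(u, v), (SimpleGraph.mem_edgeSet G).mpr h⟩}}

open Classical in
/-- A crosscut: a set of vertices which contains exactly one vertex of every edge. -/
def IsCrosscut {α : Type} (H : Set (Finset α)) (X : Finset α) : Prop :=
  ∀ A ∈ H, (X ∩ A).card = 1

/-- The crosscut number: the least size of a crosscut. -/
noncomputable def crosscutNumber {α : Type} (H : Set (Finset α)) : ℕ :=
  sInf {k : ℕ | ∃ X : Finset α, IsCrosscut H X ∧ X.card = k}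

/-- `H` contains a copy of `F`: an injective map of the vertices sends edges to edges. -/
def Contains {α β : Type} (H : Set (Finset β)) (F : Set (Finset α)) : Prop :=
  ∃ φ : α ↪ β, ∀ A ∈ F, A.map φ ∈ H

/-- `ex₃(n, F)`: the largest number of edges of a 3-graph on `n` vertices without a copy of `F`. -/
noncomputable def ex3 {α : Type} (n : ℕ) (F : Set (Finset α)) : ℕ :=
  sSup {m : ℕ | ∃ H : Finset (Finset (Fin n)), (∀ A ∈ H, A.card = 3) ∧
    ¬ Contains (H : Set (Finset (Fin n))) F ∧ H.card = m}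

lemma inter_triple_aux {α : Type} [DecidableEq α] (X : Finset α) (a b c : α) (hab : a ≠ b)
    (hac : a ≠ c) (hbc : b ≠ c) : (X ∩ {a, b, c}).card = 1 ↔
      ((a ∈ X ∧ b ∉ X ∧ c ∉ X) ∨ (a ∉ X ∧ b ∈ X ∧ c ∉ X) ∨ (a ∉ X ∧ b ∉ X ∧ c ∈ X)) := by
  have h : (X ∩ {a, b, c}).card = (if a ∈ X then 1 else 0) + (if b ∈ X then 1 else 0) +
      (if c ∈ X then 1 else 0) := by
    rw [Finset.inter_comm, ← Finset.filter_mem_eq_inter, Finset.card_filter,
      Finset.sum_insert (by simp [hab, hac]), Finset.sum_insert (by simp [hbc]),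
      Finset.sum_singleton]
    ring
  rw [h]
  by_cases ha : a ∈ X <;> by_cases hb : b ∈ X <;> by_cases hc : c ∈ X <;> simp [ha, hb, hc]

lemma inter_triple {α : Type} (i1 i2 : DecidableEq α) (X : Finset α) (a b c : α) (hab : a ≠ b)
    (hac : a ≠ c) (hbc : b ≠ c) :
    (@Inter.inter (Finset α) (@Finset.instInter α i1) X
      (@Insert.insert α (Finset α) (@Finset.instInsert α i2) a
        (@Insert.insert α (Finset α) (@Finset.instInsert α i2) b {c}))).card = 1 ↔
      ((a ∈ X ∧ b ∉ X ∧ c ∉ X) ∨ (a ∉ X ∧ b ∈ X ∧ c ∉ X) ∨ (a ∉ X ∧ b ∉ X ∧ c ∈ X)) := by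
  have h : i1 = i2 := Subsingleton.elim _ _
  subst h
  exact inter_triple_aux X a b c hab hac hbc

lemma crosscut_iff {V : Type} (G : SimpleGraph V) (X : Finset (V ⊕ G.edgeSet)) :
    IsCrosscut (expansion G) X ↔ ∀ (u v : V) (h : G.Adj u v),
      ((Sum.inl u : V ⊕ G.edgeSet) ∈ X ∧ (Sum.inl v : V ⊕ G.edgeSet) ∉ X ∧
          (Sum.inr ⟨s(u, v), (SimpleGraph.mem_edgeSet G).mpr h⟩ : V ⊕ G.edgeSet) ∉ X) ∨
      ((Sum.inl u : V ⊕ G.edgeSet) ∉ X ∧ (Sum.inl v : V ⊕ G.edgeSet) ∈ X ∧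
          (Sum.inr ⟨s(u, v), (SimpleGraph.mem_edgeSet G).mpr h⟩ : V ⊕ G.edgeSet) ∉ X) ∨
      ((Sum.inl u : V ⊕ G.edgeSet) ∉ X ∧ (Sum.inl v : V ⊕ G.edgeSet) ∉ X ∧
          (Sum.inr ⟨s(u, v), (SimpleGraph.mem_edgeSet G).mpr h⟩ : V ⊕ G.edgeSet) ∈ X) := by
  classical
  unfold IsCrosscut expansion
  constructor
  · intro h u v hadj
    have h1 := h _ ⟨u, v, hadj, rfl⟩
    refine (inter_triple _ _ X (Sum.inl u) (Sum.inl v) _ ?_ ?_ ?_).1 h1
    · simpa using hadj.ne
    · simp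
    · simp
  · rintro h A ⟨u, v, hadj, rfl⟩
    exact (inter_triple _ _ X (Sum.inl u) (Sum.inl v)
      (Sum.inr ⟨s(u, v), (SimpleGraph.mem_edgeSet G).mpr hadj⟩)
      (by simpa using hadj.ne) (by simp) (by simp)).2 (h u v hadj)

/-- If `G` is a finite graph whose expansion has crosscut number three, then
`ex₃(n, G⁺) ≤ (2 |V(G)| + |E(G)| + 3) n ^ 2` for every `n`. -/
theorem result (V : Type) [Fintype V] (G : SimpleGraph V)
    (hG : crosscutNumber (expansion G) = 3) (n : ℕ) :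
    ex3 n (expansion G) ≤ (2 * Fintype.card V + Nat.card G.edgeSet + 3) * n ^ 2 := by
  classical
  have : Fintype G.edgeSet := Fintype.ofFinite _
  unfold crosscutNumber at hG
  have hne : {k : ℕ | ∃ X : Finset (V ⊕ G.edgeSet), IsCrosscut (expansion G) X ∧
      X.card = k}.Nonempty := by
    by_contra h
    rw [Set.not_nonempty_iff_eq_empty] at h
    rw [h, Nat.sInf_empty] at hG
    omega
  have hmem := Nat.sInf_mem hne
  rw [hG] at hmem
  obtain ⟨X, hX, hX3⟩ := hmem
  have hmin : ∀ Y : Finset (V ⊕ G.edgeSet), IsCrosscut (expansion G) Y → 3 ≤ Y.card := by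
    intro Y hY
    rw [← hG]
    exact Nat.sInf_le ⟨Y, hY, rfl⟩
  refine csSup_le' ?_
  rintro m ⟨H, hH, hno, rfl⟩
  by_contra hlt
  push Not at hlt
  apply hno
  obtain ⟨f, hf, g, hg, hgf, hfg⟩ := Pool.Agent.Helper2.Exp3Main.main_core G X hX3
    ((crosscut_iff G X).1 hX) (fun Y hY => hmin Y ((crosscut_iff G Y).2 hY)) n H hH (by
      rw [Nat.card_eq_fintype_card] at hlt
      refine lt_of_le_of_lt (le_of_eq ?_) hlt
      ring)
  refine ⟨⟨Sum.elim f g, ?_⟩, ?_⟩
  · rintro (x | x) (y | y) h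
    · exact congrArg Sum.inl (hf h)
    · exact absurd h.symm (hgf y x)
    · exact absurd h (hgf x y)
    · exact congrArg Sum.inr (hg h)
  · rintro A ⟨u, v, hadj, rfl⟩
    have := hfg u v hadj
    rw [Finset.mem_coe, Finset.map_insert, Finset.map_insert, Finset.map_singleton]
    exact this

end Pool.Agent.Results.MP_099390_co.LinearConstant
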